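import Mathlib
import Pool.Agent.Q73.NL.F5
import Pool.Agent.Q73.NL.U

/-!
# Distribution of nodal sets on surfaces (MP_2a6ca1_gt)

For every sequence of eigenfunctions with `λ_n → ∞` on a surface of finite area: (1) if
`length(Z_n) ≤ C √λ_n`, then every open set `D` carries asymptotically at least the part
`area(D) / (π C)` of the nodal length, so every weak limit of the normalized nodal measures is at least
`area / (π C)`; (2) if the nodal length is asymptotically smallest, `limsup λ_n^(-1/2) length(Z_n) ≤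
area(M) / π`, then the nodal sets are evenly distributed.
-/

set_option autoImplicit false
open MeasureTheory Filter Topology Complex
open scoped ContDiff ENNReal

namespace Pool.Agent.Results.MP_2a6ca1_gt.EvenlyDistributed

noncomputable section

universe u v

/-- the Laplacian of the plane `ℂ`: `∂_x² + ∂_y²` -/
def laplacian (f : ℂ → ℝ) (z : ℂ) : ℝ :=
  fderiv ℝ (fun w => fderiv ℝ f w 1) z 1 + fderiv ℝ (fun w => fderiv ℝ f w I) z I

/-- An isothermal atlas of a Riemannian surface `M`: the charts `φ i`, defined on the open sets `U i` of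
the plane, are homeomorphisms onto open sets that cover `M`; the metric is `ρ i |dz|²` in the `i`-th
chart, that is, the area `area` of `M` is `∫ ρ i dx dy` and the length `len` (one-dimensional Hausdorff
measure) is `∫ √(ρ i) dH¹`, for the Borel subsets of the chart. -/
structure IsothermalAtlas {M ι : Type*} [TopologicalSpace M] [MeasurableSpace M] (U : ι → Set ℂ)
    (φ : ι → ℂ → M) (ρ : ι → ℂ → ℝ) (area len : Measure M) : Prop where
  isOpen_domain : ∀ i, IsOpen (U i)
  continuous_chart : ∀ i, ContinuousOn (φ i) (U i)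
  injective_chart : ∀ i, Set.InjOn (φ i) (U i)
  open_chart : ∀ i (S : Set ℂ), IsOpen S → S ⊆ U i → IsOpen (φ i '' S)
  cover : ∀ x : M, ∃ i, x ∈ φ i '' U i
  density_pos : ∀ i, ∀ z ∈ U i, 0 < ρ i z
  density_continuous : ∀ i, ContinuousOn (ρ i) (U i)
  area_chart : ∀ i (S : Set ℂ), MeasurableSet S → S ⊆ U i →
    area (φ i '' S) = ∫⁻ z in S, ENNReal.ofReal (ρ i z)
  len_chart : ∀ i (S : Set ℂ), MeasurableSet S → S ⊆ U i →
    len (φ i '' S) = ∫⁻ z in S, ENNReal.ofReal (Real.sqrt (ρ i z)) ∂(μH[1] : Measure ℂ)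

/-- `f` is a real smooth function on `M` with `Δ_g f + lam f = 0`: in the chart `φ i` the
Laplace-Beltrami operator is `Δ / ρ i` -/
def IsEigenfunction {M ι : Type*} (U : ι → Set ℂ) (φ : ι → ℂ → M) (ρ : ι → ℂ → ℝ) (lam : ℝ)
    (f : M → ℝ) : Prop :=
  ∀ i, ContDiffOn ℝ ∞ (fun z => f (φ i z)) (U i) ∧
    ∀ z ∈ U i, laplacian (fun z => f (φ i z)) z + lam * ρ i z * f (φ i z) = 0

/-- **Distribution of nodal sets.** Let `M` be a Riemannian surface given by an isothermal atlas, `f n`
eigenfunctions with eigenvalues `lam n → ∞`, `Z n` their zero sets, `D` an open subset of `M`.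
(1) If `length(Z n) ≤ C √(lam n)` for large `n`, then
`liminf length(Z n ∩ D) / length(Z n) ≥ area(D) / (π C)`.
(2) If the area of `M` is finite and `limsup length(Z n) / √(lam n) ≤ area(M) / π` (then the limit exists
and equality holds), and `area(∂D) = 0`, then `length(Z n ∩ D) / length(Z n) → area(D) / area(M)` and
`length(Z n ∩ D) / √(lam n) → area(D) / π`. -/
theorem result (M : Type u) (ι : Type v) [TopologicalSpace M] [T2Space M]
    [SecondCountableTopology M] [MeasurableSpace M] [BorelSpace M] (U : ι → Set ℂ) (φ : ι → ℂ → M)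
    (ρ : ι → ℂ → ℝ) (area len : Measure M) (hM : IsothermalAtlas U φ ρ area len) (lam : ℕ → ℝ)
    (f : ℕ → M → ℝ) (hlam : Tendsto lam atTop atTop)
    (hf : ∀ n, IsEigenfunction U φ ρ (lam n) (f n)) (D : Set M) (hD : IsOpen D) :
    (∀ C : ℝ, 0 < C → (∀ᶠ n in atTop, len {x | f n x = 0} ≤ ENNReal.ofReal (C * Real.sqrt (lam n))) →
      ENNReal.ofReal (1 / (Real.pi * C)) * area D ≤
        liminf (fun n => len {x | x ∈ D ∧ f n x = 0} / len {x | f n x = 0}) atTop) ∧
    (area Set.univ ≠ ⊤ → area Set.univ ≠ 0 →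
      limsup (fun n => len {x | f n x = 0} / ENNReal.ofReal (Real.sqrt (lam n))) atTop ≤
        ENNReal.ofReal (1 / Real.pi) * area Set.univ → area (frontier D) = 0 →
      Tendsto (fun n => len {x | x ∈ D ∧ f n x = 0} / len {x | f n x = 0}) atTop
        (𝓝 (area D / area Set.univ)) ∧
      Tendsto (fun n => len {x | x ∈ D ∧ f n x = 0} / ENNReal.ofReal (Real.sqrt (lam n))) atTop
        (𝓝 (ENNReal.ofReal (1 / Real.pi) * area D))) := by
  have hU : Pool.Agent.Q73.NL.U3 := Pool.Agent.Q73.NL.u3
  have hA : Pool.Agent.Q73.NL.Atl U φ ρ area len :=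
    ⟨hM.isOpen_domain, hM.continuous_chart, hM.injective_chart, hM.open_chart, hM.cover,
      hM.density_pos, hM.density_continuous, hM.area_chart, hM.len_chart⟩
  have hz : ∀ n, {x | f n x = 0} = Pool.Agent.Q73.NL.zs Set.univ (f n) := fun n => by
    ext x; simp [Pool.Agent.Q73.NL.zs]
  have hs : ∀ n i, Pool.Agent.Q73.NL.Sol (U i) (fun z => lam n * ρ i z) (fun z => f n (φ i z)) :=
    fun n i => ⟨(hf n i).1, (hf n i).2⟩
  simp only [hz]
  constructor
  · intro C hC hle
    exact Pool.Agent.Q73.NL.ratio_lower hU hA hlam hs hC hle hD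
  · intro hfin hne hmin hfr
    exact ⟨Pool.Agent.Q73.NL.ratio_equi hU hA hlam hs hfin hne hmin hD hfr,
      Pool.Agent.Q73.NL.surface_equi hU hA hlam hs hfin hmin hD hfr⟩

end

end Pool.Agent.Results.MP_2a6ca1_gt.EvenlyDistributed
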